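import Pool.Agent.H80.NVK.UNFa

/-!
# Board nvk_modules, row U_UNF: the unfolded second moment
-/

set_option autoImplicit false

open MeasureTheory Set Filter NumberField NumberField.InfinitePlace
open scoped Real

namespace Pool.Agent.H80.NVK

open Pool.Agent.H65.CM4 Pool.Agent.H61.NVK Pool.Agent.H89.NV

section

variable {k : Type} [Field k]

lemma us_smul_left (f : Ideal (𝓞 k)) (D : 𝓞 k) (r : ℝ) (ω : WW k) (F : FF k) :
    US f D (fun e A b c => r * ω e A b c) F = r * US f D ω F := by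
  unfold US
  rw [← tsum_mul_left]
  refine tsum_congr fun p => ?_
  rw [Finset.mul_sum]
  exact Finset.sum_congr rfl fun b _ => by ring

lemma us_smul_right (f : Ideal (𝓞 k)) (D : 𝓞 k) (r : ℝ) (ω : WW k) (F : FF k) :
    US f D ω (fun A b c => r * F A b c) = r * US f D ω F := by
  unfold US
  rw [← tsum_mul_left]
  refine tsum_congr fun p => ?_
  rw [Finset.mul_sum]
  exact Finset.sum_congr rfl fun b _ => by ring

lemma us_zero_left (f : Ideal (𝓞 k)) (D : 𝓞 k) (F : FF k) :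
    US f D (fun _ _ _ _ => 0) F = 0 := by
  unfold US
  simp

lemma us_zero_right (f : Ideal (𝓞 k)) (D : 𝓞 k) (ω : WW k) :
    US f D ω (fun _ _ _ => 0) = 0 := by
  unfold US
  simp

open Classical in
lemma bs_bot (hR : Rs (⊥ : Ideal (𝓞 k)) = ∅) (f : Ideal (𝓞 k)) (D : 𝓞 k) : bs f ⊥ D = ∅ := by
  unfold bs
  have h : ni k 2 * (⊥ * f) = ⊥ := by rw [Ideal.bot_mul, Ideal.mul_bot]
  rw [h, hR, Finset.filter_empty]

open Classical in
lemma fm_of_bs (hR : Rs (⊥ : Ideal (𝓞 k)) = ∅) {f A : Ideal (𝓞 k)} {D b : 𝓞 k}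
    (hb : b ∈ bs f A D) : Fm f D A b := by
  have hA : A ≠ ⊥ := by
    rintro rfl
    rw [bs_bot hR] at hb
    exact absurd hb (Finset.notMem_empty _)
  unfold bs at hb
  rw [Finset.mem_filter] at hb
  exact ⟨hA, hb.2.1, hb.2.2⟩

lemma us_congr (hR : Rs (⊥ : Ideal (𝓞 k)) = ∅) (f : Ideal (𝓞 k)) (D : 𝓞 k) (ω ω' : WW k)
    (F F' : FF k)
    (h : ∀ (e A : Ideal (𝓞 k)) (b : 𝓞 k), Fm f D A b →
      ω e A b (q4 (b ^ 2 + D)) * F A b (q4 (b ^ 2 + D)) =
        ω' e A b (q4 (b ^ 2 + D)) * F' A b (q4 (b ^ 2 + D))) :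
    US f D ω F = US f D ω' F' := by
  unfold US
  refine tsum_congr fun p => Finset.sum_congr rfl fun b hb => ?_
  exact h p.1 p.2 b (fm_of_bs hR hb)

lemma nr_trans (hTRV : T_TRV k) (f A : Ideal (𝓞 k)) (D b j : 𝓞 k) (P : PrI k) (hf : f ≠ ⊥)
    (hA : Fm f D A b) (hj : j ∈ A * f) :
    Pool.Agent.H89.NV.nr f P.1 A (b + 2 * j) (q4 ((b + 2 * j) ^ 2 + D)) =
      Pool.Agent.H89.NV.nr f P.1 A b (q4 (b ^ 2 + D)) := by
  have h1 := ((hTRV f A D b hf hA).2.2.2.1 j hj).2.2 P.1 (fun _ => 1) P.2.2 (fun _ _ _ => rfl)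
  simp only [Finset.sum_const, nsmul_eq_mul, mul_one] at h1
  unfold Pool.Agent.H89.NV.nr
  exact_mod_cast h1

variable [NumberField k]

/-! ### Sums over ideals -/

lemma exists_pr : Nonempty (PrI k) := by
  obtain ⟨M, hM⟩ := Ideal.exists_maximal (𝓞 k)
  exact ⟨⟨M, hM.isPrime, Ring.ne_bot_of_isMaximal_of_not_isField hM
    (RingOfIntegers.not_isField k)⟩⟩

lemma wi_zero (f : Ideal (𝓞 k)) (D : 𝓞 k) : WI f D (fun _ _ _ _ => 0) where
  zero _ _ _ := rfl
  inv _ _ _ _ _ _ _ := rfl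
  bd _ := ⟨0, le_rfl, fun _ _ _ _ _ => by simp⟩

lemma wi_add {f : Ideal (𝓞 k)} {D : 𝓞 k} {ω ω' : WW k} (h : WI f D ω) (h' : WI f D ω') :
    WI f D (fun e A b c => ω e A b c + ω' e A b c) where
  zero A b c := by rw [h.zero, h'.zero, add_zero]
  inv e A b he hA j hj := by rw [h.inv e A b he hA j hj, h'.inv e A b he hA j hj]
  bd B := by
    obtain ⟨C, hC, h1⟩ := h.bd B
    obtain ⟨C', hC', h2⟩ := h'.bd B
    refine ⟨C + C', by positivity, fun e A b he hA => ?_⟩
    rw [add_div]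
    exact (abs_add_le _ _).trans (add_le_add (h1 e A b he hA) (h2 e A b he hA))

lemma wi_smul {f : Ideal (𝓞 k)} {D : 𝓞 k} {ω : WW k} (h : WI f D ω) (r : ℝ) :
    WI f D (fun e A b c => r * ω e A b c) where
  zero A b c := by rw [h.zero, mul_zero]
  inv e A b he hA j hj := by rw [h.inv e A b he hA j hj]
  bd B := by
    obtain ⟨C, hC, h1⟩ := h.bd B
    refine ⟨|r| * C, by positivity, fun e A b he hA => ?_⟩
    rw [abs_mul, mul_div_assoc]
    exact mul_le_mul_of_nonneg_left (h1 e A b he hA) (abs_nonneg _)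

lemma fi_zero (f : Ideal (𝓞 k)) (D : 𝓞 k) : FI f D (fun _ _ _ => 0) where
  inv _ _ _ _ _ := rfl
  bd := ⟨0, 0, le_rfl, fun _ _ _ => by simp⟩

lemma fi_add {f : Ideal (𝓞 k)} {D : 𝓞 k} {F F' : FF k} (h : FI f D F) (h' : FI f D F') :
    FI f D (fun A b c => F A b c + F' A b c) where
  inv A b hA j hj := by rw [h.inv A b hA j hj, h'.inv A b hA j hj]
  bd := by
    obtain ⟨C, i, hC, h1⟩ := h.bd
    obtain ⟨C', i', hC', h2⟩ := h'.bd
    refine ⟨C + C', max i i', by positivity, fun A b hA => ?_⟩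
    have h3 := nm_one_le hA.ne
    have h4 : nm A ^ i ≤ nm A ^ max i i' := pow_le_pow_right₀ h3 (le_max_left _ _)
    have h5 : nm A ^ i' ≤ nm A ^ max i i' := pow_le_pow_right₀ h3 (le_max_right _ _)
    rw [add_mul]
    refine (abs_add_le _ _).trans (add_le_add ((h1 A b hA).trans ?_) ((h2 A b hA).trans ?_))
    · exact mul_le_mul_of_nonneg_left h4 hC
    · exact mul_le_mul_of_nonneg_left h5 hC'

lemma fi_smul {f : Ideal (𝓞 k)} {D : 𝓞 k} {F : FF k} (h : FI f D F) (r : ℝ) :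
    FI f D (fun A b c => r * F A b c) where
  inv A b hA j hj := by rw [h.inv A b hA j hj]
  bd := by
    obtain ⟨C, i, hC, h1⟩ := h.bd
    refine ⟨|r| * C, i, by positivity, fun A b hA => ?_⟩
    rw [abs_mul, mul_assoc]
    exact mul_le_mul_of_nonneg_left (h1 A b hA) (abs_nonneg _)

end

section

variable {k : Type} [Field k] [NumberField k]

lemma us_sum_left (hTPB : T_TPB k) (f : Ideal (𝓞 k)) (D : 𝓞 k) (hf : f ≠ ⊥) {ι : Type}
    (S : Finset ι) (r : ι → ℝ) (ω : ι → WW k) (F : FF k) (hω : ∀ m, WI f D (ω m))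
    (hF : FI f D F) :
    WI f D (fun e A b c => ∑ m ∈ S, r m * ω m e A b c) ∧
    US f D (fun e A b c => ∑ m ∈ S, r m * ω m e A b c) F = ∑ m ∈ S, r m * US f D (ω m) F := by
  classical
  induction S using Finset.induction_on with
  | empty =>
    simp only [Finset.sum_empty]
    refine ⟨wi_zero f D, us_zero_left f D F⟩
  | insert m S hm ih =>
    obtain ⟨i1, i2⟩ := ih
    simp only [Finset.sum_insert hm]
    refine ⟨wi_add (wi_smul (hω m) (r m)) i1, ?_⟩
    rw [← i2, ← us_smul_left]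
    obtain ⟨P⟩ := exists_pr (k := k)
    exact (hTPB f D P hf).2.2.1 (fun e A b c => r m * ω m e A b c)
      (fun e A b c => ∑ m ∈ S, r m * ω m e A b c) F (wi_smul (hω m) (r m)) i1 hF

lemma us_sum_right (hTPB : T_TPB k) (f : Ideal (𝓞 k)) (D : 𝓞 k) (hf : f ≠ ⊥) {ι : Type}
    (S : Finset ι) (r : ι → ℝ) (ω : WW k) (F : ι → FF k) (hω : WI f D ω)
    (hF : ∀ m, FI f D (F m)) :
    FI f D (fun A b c => ∑ m ∈ S, r m * F m A b c) ∧
    US f D ω (fun A b c => ∑ m ∈ S, r m * F m A b c) = ∑ m ∈ S, r m * US f D ω (F m) := by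
  classical
  induction S using Finset.induction_on with
  | empty =>
    simp only [Finset.sum_empty]
    refine ⟨fi_zero f D, us_zero_right f D ω⟩
  | insert m S hm ih =>
    obtain ⟨i1, i2⟩ := ih
    simp only [Finset.sum_insert hm]
    refine ⟨fi_add (fi_smul (hF m) (r m)) i1, ?_⟩
    rw [← i2, ← us_smul_right]
    obtain ⟨P⟩ := exists_pr (k := k)
    exact (hTPB f D P hf).2.2.2 ω (fun A b c => r m * F m A b c)
      (fun A b c => ∑ m ∈ S, r m * F m A b c) hω (fi_smul (hF m) (r m)) i1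

/-- products of Hecke operators preserve the functions of forms -/
lemma fi_TL (hTPB : T_TPB k) (f : Ideal (𝓞 k)) (D : 𝓞 k) (hf : f ≠ ⊥) (l : List (PrI k))
    (F : FF k) (hF : FI f D F) : FI f D (TL f l F) := by
  induction l with
  | nil => exact hF
  | cons P l ih => exact (hTPB f D P hf).1 _ ih

lemma wi_foldl (hTPB : T_TPB k) (f : Ideal (𝓞 k)) (D : 𝓞 k) (hf : f ≠ ⊥) (l : List (PrI k))
    (ω : WW k) (hω : WI f D ω) : WI f D (l.foldl (fun ω P => Wp f P.1 ω) ω) := by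
  induction l generalizing ω with
  | nil => exact hω
  | cons P l ih => exact ih _ ((hTPB f D P hf).2.1 _ hω)

/-- the Hecke operators can be moved to the weight -/
lemma us_list (hADJ : T_ADJ k) (hTPB : T_TPB k) (f : Ideal (𝓞 k)) (D : 𝓞 k) (hf : f ≠ ⊥)
    (l : List (PrI k)) (ω : WW k) (F : FF k) (hω : WI f D ω) (hF : FI f D F) :
    US f D ω (TL f l F) = US f D (l.foldl (fun ω P => Wp f P.1 ω) ω) F := by
  induction l generalizing ω with
  | nil => rfl
  | cons P l ih =>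
    have h1 : TL f (P :: l) F = Tp f P.1 (TL f l F) := rfl
    rw [h1, ← hADJ f D P ω (TL f l F) hf hω (fi_TL hTPB f D hf l F hF),
      ih _ ((hTPB f D P hf).2.1 _ hω)]
    rfl

lemma lam_trans {D : 𝓞 k} {K : Type} [Field K] [Algebra k K] (h : CK D K) (f A : Ideal (𝓞 k))
    (b j : 𝓞 k) (hj : j ∈ A * f) : Lam h f A (b + 2 * j) = Lam h f A b := by
  have hK : CharZero K := charZero_of_injective_algebraMap (algebraMap k K).injective
  have key : (algebraMap (𝓞 k) K (b + 2 * j) + h.s) / 2 =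
      algebraMap (𝓞 k) K j + (algebraMap (𝓞 k) K b + h.s) / 2 := by
    rw [map_add, map_mul, map_ofNat]
    field_simp
    ring
  have hjm : algebraMap (𝓞 k) K j ∈ Submodule.map (Algebra.linearMap (𝓞 k) K) (A * f) :=
    Submodule.mem_map_of_mem (f := Algebra.linearMap (𝓞 k) K) hj
  unfold Lam
  apply le_antisymm
  · refine sup_le le_sup_left ?_
    rw [Submodule.span_singleton_le_iff_mem, key]
    exact Submodule.add_mem _ (Submodule.mem_sup_left hjm)
      (Submodule.mem_sup_right (Submodule.mem_span_singleton_self _))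
  · refine sup_le le_sup_left ?_
    rw [Submodule.span_singleton_le_iff_mem]
    have h1 : (algebraMap (𝓞 k) K b + h.s) / 2 =
        (algebraMap (𝓞 k) K (b + 2 * j) + h.s) / 2 - algebraMap (𝓞 k) K j := by
      rw [key]; ring
    rw [h1]
    exact Submodule.sub_mem _ (Submodule.mem_sup_right (Submodule.mem_span_singleton_self _))
      (Submodule.mem_sup_left hjm)

variable [IsTotallyReal k]

open Classical in
/-- the weight of a squarefree ideal -/
noncomputable def OM (f : Ideal (𝓞 k)) (D : 𝓞 k) (m : Finset (PrI k)) : WW k := fun e A b c =>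
  if e = ⊥ then 0 else ph f D (nm (e ^ 2 * A) / nS m) * ((∏ P ∈ m, N1 f P.1 e A b c : ℕ) : ℝ)

omit [IsTotallyReal k] in
/-- the local numbers of the vectors `(t, 0)` -/
lemma nuP_zero (f c e A : Ideal (𝓞 k)) (P : PrI k) (b t x : 𝓞 k) (hf : f ≠ ⊥) (hA : A ≠ ⊥)
    (hc : c ≠ ⊥) (ht : Ideal.span {t} = c * (e * (A * f))) :
    nuP f P.1 c A b x (t, 0) = N1 f P.1 e A b x := by
  classical
  unfold nuP N1 Pool.Agent.H89.NV.nr
  congr 1
  · simp
  · simp only [mul_zero, sub_zero]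
    have h1 : t ∈ P.1 * (c * (A * f)) ↔ P.1 ∣ e := by
      rw [← Ideal.span_singleton_le_iff_mem, ← Ideal.dvd_iff_le, ht]
      have h2 : c * (e * (A * f)) = (c * (A * f)) * e := by ring
      have h3 : P.1 * (c * (A * f)) = (c * (A * f)) * P.1 := by ring
      rw [h2, h3]
      apply mul_dvd_mul_iff_left
      exact mul_ne_zero hc (mul_ne_zero hA hf)
    by_cases h : P.1 ∣ e
    · rw [if_pos h, Finset.filter_true_of_mem (fun j _ => h1.2 h)]
    · rw [if_neg h, Finset.filter_false_of_mem (fun j _ => fun h2 => h (h1.1 h2)),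
        Finset.card_empty]

/-- the norm of the vectors `(t, 0)` -/
lemma nf_zero (f c e A : Ideal (𝓞 k)) (b D t : 𝓞 k) (hf : f ≠ ⊥) (hA : A ≠ ⊥)
    (hc : c ≠ ⊥) (ht : Ideal.span {t} = c * (e * (A * f))) :
    nf c A f (em b) (em D) (t, 0) = nm (e ^ 2 * A) := by
  have h1 : qd (em b) (em D) (t, 0) = nm (Ideal.span {t}) ^ 2 := by
    unfold qd
    have h2 : ∀ v : Pl k, (rv v ((t, (0 : 𝓞 k)).1 : k) + rv v ((t, (0 : 𝓞 k)).2 : k) * em b v / 2) ^ 2 +
        em D v * rv v ((t, (0 : 𝓞 k)).2 : k) ^ 2 / 4 = (v (t : k) ^ v.mult) ^ 2 := by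
      intro v
      have h3 : v (t : k) = |rv v (t : k)| := by
        rw [← Real.norm_eq_abs]
        exact (norm_embedding_of_isReal (IsTotallyReal.isReal v) (t : k)).symm
      have h4 : v.mult = 1 := mult_isReal ⟨v, IsTotallyReal.isReal v⟩
      simp only [map_zero, zero_mul, zero_div, add_zero, mul_zero, ne_eq, OfNat.ofNat_ne_zero,
        not_false_eq_true, zero_pow]
      rw [h4, pow_one, h3, sq_abs]
    rw [Finset.prod_congr rfl fun v _ => h2 v, Finset.prod_pow, prod_eq_abs_norm]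
    unfold nm
    rw [Ideal.absNorm_span_singleton]
    have h5 : (Algebra.norm ℚ (t : k)) = ((Algebra.norm ℤ t : ℤ) : ℚ) :=
      (Algebra.coe_norm_int t).symm
    rw [h5]
    rw [Nat.cast_natAbs]
    push_cast
    rw [sq_abs]
  unfold nf
  rw [h1, ht, nm_mul, nm_mul, nm_mul, pow_two e, nm_mul, nm_mul]
  have h6 := nm_pos hf
  have h7 := nm_pos hA
  have h8 := nm_pos hc
  field_simp

lemma N1_le (hIDL : T_IDL k) (hHK2 : T_HK2 k) (f : Ideal (𝓞 k)) (D : 𝓞 k) (hf : f ≠ ⊥)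
    (hD : tp D) (e A : Ideal (𝓞 k)) (b : 𝓞 k) (he : e ≠ ⊥) (hA : Fm f D A b) (P : PrI k) :
    (N1 f P.1 e A b (q4 (b ^ 2 + D)) : ℝ) ≤ np P + 1 := by
  obtain ⟨c, t, hc, ht0, ht⟩ := hIDL.1 (e * (A * f)) (mul_ne_zero he (mul_ne_zero hA.ne hf))
  rw [mul_comm] at ht
  rw [← nuP_zero f c e A P b t (q4 (b ^ 2 + D)) hf hA.ne hc ht.symm]
  have h1 : t ∈ Ideal.span {t} := Ideal.mem_span_singleton_self t
  rw [← ht] at h1
  have h2 : c * (e * (A * f)) ≤ c * (A * f) := Ideal.mul_mono_right Ideal.mul_le_right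
  have h3 : t ∈ c * (A * f) := h2 h1
  have hu : ((t, (0 : 𝓞 k)) : V2 k) ∈ Lb c (A * f) := ⟨h3, c.zero_mem⟩
  exact ((hHK2 f D hf hD c A b (t, 0) hc hA hu).1 P 1 one_ne_zero).2.2

lemma wi_OM (hIDL : T_IDL k) (hTRV : T_TRV k) (hHK2 : T_HK2 k) (hVK : DV k) (f : Ideal (𝓞 k))
    (D : 𝓞 k) (hf : f ≠ ⊥) (hD : tp D) (m : Finset (PrI k)) : WI f D (OM f D m) where
  zero A b c := by
    unfold OM
    rw [if_pos rfl]
  inv e A b he hA j hj := by
    unfold OM
    rw [if_neg he, if_neg he]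
    congr 2
    refine Finset.prod_congr rfl fun P _ => ?_
    unfold N1
    rw [nr_trans hTRV f A D b j P hf hA hj]
  bd B := by
    obtain ⟨C, hC, h1⟩ := ph_sc hVK f D hf hD B (nS m) (nS_pos m)
    have h0 := prod_np_nonneg m
    refine ⟨C * ∏ P ∈ m, (np P + 1), by positivity, fun e A b he hA => ?_⟩
    have h2 : (1 : ℝ) ≤ nm (e ^ 2 * A) := nm_one_le (mul_ne_zero (pow_ne_zero 2 he) hA.ne)
    have h3 := h1 _ h2
    have h4 : ((∏ P ∈ m, N1 f P.1 e A b (q4 (b ^ 2 + D)) : ℕ) : ℝ) ≤ ∏ P ∈ m, (np P + 1) := by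
      rw [Nat.cast_prod]
      exact Finset.prod_le_prod (fun P _ => Nat.cast_nonneg _)
        (fun P _ => N1_le hIDL hHK2 f D hf hD e A b he hA P)
    unfold OM
    rw [if_neg he, abs_mul,
      abs_of_nonneg (Nat.cast_nonneg (α := ℝ) (∏ P ∈ m, N1 f P.1 e A b (q4 (b ^ 2 + D))))]
    calc |ph f D (nm (e ^ 2 * A) / nS m)| * ((∏ P ∈ m, N1 f P.1 e A b (q4 (b ^ 2 + D)) : ℕ) : ℝ)
        ≤ (C / nm (e ^ 2 * A) ^ B) * ∏ P ∈ m, (np P + 1) :=
          mul_le_mul h3 h4 (Nat.cast_nonneg _) (le_trans (abs_nonneg _) h3)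
      _ = C * (∏ P ∈ m, (np P + 1)) / nm (e ^ 2 * A) ^ B := by ring

/-- the central value as a sum over vectors -/
lemma zf_eq (f : Ideal (𝓞 k)) (D : 𝓞 k) (A : Ideal (𝓞 k)) (b : 𝓞 k) :
    zf A f (em b) (em D) = Vs f (fun a A b u => ph f D (nf a A f (em b) (em D) u)) A b := rfl

lemma WV_empty (f : Ideal (𝓞 k)) (D : 𝓞 k) :
    WV f D ∅ = fun a A b u => ph f D (nf a A f (em b) (em D) u) := by
  funext a A b u
  unfold WV nS nu
  simp

lemma fi_zf (hTRV : T_TRV k) (hGRW : T_GRW k) (hVSE : T_VSE k) (hLMB : T_LMB k)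
    (hIXN : T_IXN k) (hNUV : T_NUV k) (hHK2 : T_HK2 k) (hVK : DV k) (f : Ideal (𝓞 k))
    (D : 𝓞 k) (hf : f ≠ ⊥) (hD : tp D) (K : Type) [Field K] [Algebra k K] (h : CK D K) :
    FI f D (fun A b _ => zf A f (em b) (em D)) where
  inv A b hA j hj := by
    have h1 := vf_WV hLMB hIXN hNUV hHK2 hVK f D hf hD K h ∅
    rw [WV_empty] at h1
    have h2 := ((hTRV f A D b hf hA).2.2.2.1 j hj).1
    simp only [zf_eq]
    refine hVSE D hD K h f _ hf h1 A A ⊤ ⊤ (b + 2 * j) b 1 h2 hA ?_ ?_ one_ne_zero ?_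
    · exact top_ne_bot
    · exact top_ne_bot
    · rw [lam_trans h f A b j hj]
  bd := by
    obtain ⟨C, j, hC, h1⟩ := hGRW f D hf hD
    have h2 := vf_WV hLMB hIXN hNUV hHK2 hVK f D hf hD K h ∅
    rw [WV_empty] at h2
    obtain ⟨C', hC', h3⟩ := h2.bd 2
    refine ⟨C' * C, j, by positivity, fun A b hA => ?_⟩
    obtain ⟨h4, h5⟩ := h1 A b hA
    have h6 := (vs_bound f A D b _ C' hA h4 h3).2
    simp only [zf_eq]
    refine h6.trans ?_
    rw [mul_assoc]
    exact mul_le_mul_of_nonneg_left h5 hC'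

lemma ph_div (f : Ideal (𝓞 k)) (D : 𝓞 k) (x n : ℝ) (hn : 0 < n) :
    ph f D (x / n) = 2 * Real.sqrt n * (Vk k (x / (n * sd f (em D))) / Real.sqrt x) := by
  unfold ph sd
  rw [Real.sqrt_div' x hn.le]
  have h1 : x / n * nm f / sD (em D) = x / (n * (sD (em D) / nm f)) := by
    rw [← div_div, div_div_eq_mul_div]
  rw [h1, div_div_eq_mul_div]
  ring

/-- the mollified central value as a sum over vectors -/
lemma Zc_eq (f : Ideal (𝓞 k)) (D : 𝓞 k) (S : Finset (Finset (PrI k))) (c : Finset (PrI k) → ℝ)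
    (A : Ideal (𝓞 k)) (b : 𝓞 k) :
    Zc f S c A b D =
      Vs f (fun a A b u => ∑ m ∈ S, (c m / Real.sqrt (nS m)) * WV f D m a A b u) A b := by
  classical
  unfold Zc Vs
  refine Finset.sum_congr rfl fun a _ => tsum_congr fun u => ?_
  split_ifs with hu
  · rw [Finset.sum_div]
    refine Finset.sum_congr rfl fun m _ => ?_
    unfold WV
    have hs : 0 < Real.sqrt (nS m) := Real.sqrt_pos.2 (nS_pos m)
    rw [ph_div f D _ _ (nS_pos m)]
    field_simp
  · rfl

theorem pf_UNF (hRSB : T_RSB k) (hIDL : T_IDL k) (hTRV : T_TRV k) (hADJ : T_ADJ k)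
    (hTPB : T_TPB k) (hWC : T_WC k) (hHKZ : T_HKZ k) (hGRW : T_GRW k) (hIXN : T_IXN k)
    (hNUV : T_NUV k) (hVSE : T_VSE k) (hORB : T_ORB k) (hHK2 : T_HK2 k) (hLMB : T_LMB k)
    (hVK : DV k) : T_UNF k := by
  classical
  intro f D hf hD hDis K _ _ h S c ι _ A b hform hIneq
  have hR := hRSB.2.1
  have hFm : ∀ i, Fm f D (A i) (b i) := fun i => ⟨(hform i).1, (hform i).2.1, (hform i).2.2⟩
  have hVW : ∀ m, VF h f (WV f D m) := vf_WV hLMB hIXN hNUV hHK2 hVK f D hf hD K h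
  have hWI : ∀ m, WI f D (OM f D m) := wi_OM hIDL hTRV hHK2 hVK f D hf hD
  have hFI : FI f D (fun A b _ => zf A f (em b) (em D)) :=
    fi_zf hTRV hGRW hVSE hLMB hIXN hNUV hHK2 hVK f D hf hD K h
  set r : Finset (PrI k) → ℝ := fun m => c m / Real.sqrt (nS m) with hr
  set w : VV k := fun a A b u => ∑ m ∈ S, r m * WV f D m a A b u with hw
  set ω : WW k := fun e A b x => ∑ m ∈ S, r m * OM f D m e A b x with hω
  -- unfolding over the classes
  have h1 : ∑ i, (Zc f S c (A i) (b i) D) ^ 2 ≤ US f D ω (fun A b _ => Vs f w A b) := by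
    have h2 := hORB D hD K h f w ω hf hDis (vf_sum h f S r (WV f D) hVW) ?_ ?_ ι A b hFm hIneq
    · refine le_trans (le_of_eq ?_) h2
      refine Finset.sum_congr rfl fun i _ => ?_
      rw [Zc_eq]
    · intro A b x
      simp only [hω]
      refine Finset.sum_eq_zero fun m _ => ?_
      rw [(hWI m).zero, mul_zero]
    · intro e A x b t he hA ht0 ht
      have hx : x ≠ ⊥ := by
        rintro rfl
        rw [Ideal.bot_mul, Ideal.span_singleton_eq_bot] at ht
        exact ht0 ht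
      simp only [hω, hw]
      refine Finset.sum_congr rfl fun m _ => ?_
      congr 1
      unfold OM WV
      rw [if_neg he, nf_zero f x e A b D t hf hA.ne hx ht]
      congr 2
      unfold nu
      refine Finset.prod_congr rfl fun P _ => ?_
      rw [nuP_zero f x e A P b t _ hf hA.ne hx ht]
  refine h1.trans (le_of_eq ?_)
  -- the mollified value as a sum of Hecke operators
  obtain ⟨C, j, hC, hG⟩ := hGRW f D hf hD
  have h3 : ∀ (A : Ideal (𝓞 k)) (b : 𝓞 k), Fm f D A b → Vs f w A b =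
      ∑ m ∈ S, r m * TL f m.toList (fun A b _ => zf A f (em b) (em D)) A b
        (q4 (b ^ 2 + D)) := by
    intro A b hA
    have h4 : Vs f w A b = ∑ m ∈ S, r m * Vs f (WV f D m) A b := by
      refine vs_sum f A b S r (WV f D) (fun m _ a => ?_)
      obtain ⟨C', -, h5⟩ := (hVW m).bd 2
      exact (vs_bound f A D b (WV f D m) C' hA (hG A b hA).1 h5).1 a
    rw [h4]
    refine Finset.sum_congr rfl fun m _ => ?_
    congr 1
    obtain ⟨C', -, h5⟩ := ph_two hVK f D hf hD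
    have h6 := hHKZ f D m.toList (ph f D) hf hD m.nodup_toList ⟨C', h5⟩ A b hA
    rw [Finset.toList_toFinset] at h6
    exact h6.symm
  have h4 : US f D ω (fun A b _ => Vs f w A b) = US f D ω (fun A b x =>
      ∑ m ∈ S, r m * TL f m.toList (fun A b _ => zf A f (em b) (em D)) A b x) := by
    refine us_congr hR f D _ _ _ _ (fun e A b hA => ?_)
    rw [h3 A b hA]
  have hFT : ∀ m : Finset (PrI k), FI f D (TL f m.toList (fun A b _ => zf A f (em b) (em D))) :=
    fun m => fi_TL hTPB f D hf _ _ hFI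
  have hWS := us_sum_left hTPB f D hf S r (OM f D) (fun A b _ => zf A f (em b) (em D)) hWI hFI
  rw [h4, (us_sum_right hTPB f D hf S r ω
    (fun m => TL f m.toList (fun A b _ => zf A f (em b) (em D))) hWS.1 hFT).2]
  -- one pair
  have h5 : ∀ m₁ m₂ : Finset (PrI k),
      US f D (OM f D m₁) (TL f m₂.toList (fun A b _ => zf A f (em b) (em D))) =
        2 * (Real.sqrt (nS m₁) * Real.sqrt (nS m₂)) * Uf f m₁ m₂ D := by
    intro m₁ m₂
    rw [us_list hADJ hTPB f D hf _ _ _ (hWI m₁) hFI]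
    unfold Uf
    rw [← us_smul_left]
    refine us_congr hR f D _ _ _ _ (fun e A b hA => ?_)
    congr 1
    by_cases he : e = ⊥
    · rw [he, (wi_foldl hTPB f D hf m₂.toList _ (hWI m₁)).zero]
      have h6 : nm ((⊥ : Ideal (𝓞 k)) ^ 2 * A) = 0 := by
        rw [pow_two, Ideal.bot_mul, Ideal.bot_mul]
        unfold nm
        simp
      unfold wt
      rw [h6, Real.sqrt_zero, div_zero, zero_mul, mul_zero]
    · have h7 := hWC f D m₁ m₂.toList (fun x => ph f D (x / nS m₁)) hf m₂.nodup_toList e A b he hA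
      rw [Finset.toList_toFinset] at h7
      refine Eq.trans h7 ?_
      have h8 : nm (e ^ 2 * A) / nS m₂ / nS m₁ = nm (e ^ 2 * A) / (nS m₁ * nS m₂) := by
        rw [div_div, mul_comm (nS m₂)]
      rw [h8, ph_div f D _ _ (mul_pos (nS_pos m₁) (nS_pos m₂)),
        Real.sqrt_mul (nS_pos m₁).le]
      unfold wt
      ring
  have h6 : ∀ m₂ : Finset (PrI k),
      r m₂ * US f D ω (TL f m₂.toList (fun A b _ => zf A f (em b) (em D))) =
        ∑ m₁ ∈ S, 2 * (c m₁ * c m₂ * Uf f m₁ m₂ D) := by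
    intro m₂
    rw [(us_sum_left hTPB f D hf S r (OM f D) _ hWI (hFT m₂)).2, Finset.mul_sum]
    refine Finset.sum_congr rfl fun m₁ _ => ?_
    rw [h5, hr]
    have e1 : 0 < Real.sqrt (nS m₁) := Real.sqrt_pos.2 (nS_pos m₁)
    have e2 : 0 < Real.sqrt (nS m₂) := Real.sqrt_pos.2 (nS_pos m₂)
    field_simp
  rw [Finset.sum_congr rfl fun m₂ _ => h6 m₂, Finset.sum_comm]
  simp only [Finset.mul_sum]

end

end Pool.Agent.H80.NVK
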