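import Pool.Agent.H89.NV.TU2

/-!
# Board nvk_modules, row U_UNF: the unfolded second moment, preparations
-/

set_option autoImplicit false

open MeasureTheory Set Filter NumberField NumberField.InfinitePlace
open scoped Real

namespace Pool.Agent.H80.NVK

open Pool.Agent.H65.CM4 Pool.Agent.H61.NVK Pool.Agent.H89.NV

/-- the decay of the cut-off function -/
def DV (k : Type) [Field k] [NumberField k] : Prop :=
  ∀ B : ℕ, ∃ C : ℝ, 0 < C ∧ ∀ x : ℝ, 0 < x → |Vk k x| ≤ C * (1 + x) ^ (-(B : ℝ))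

section

variable {k : Type} [Field k] [NumberField k]

lemma nm_mul (I J : Ideal (𝓞 k)) : nm (I * J) = nm I * nm J := by
  unfold nm
  rw [map_mul]
  push_cast
  rfl

lemma nm_one_le {I : Ideal (𝓞 k)} (h : I ≠ ⊥) : 1 ≤ nm I := by
  unfold nm
  have : Ideal.absNorm I ≠ 0 := by
    rw [ne_eq, Ideal.absNorm_eq_zero_iff]
    exact h
  exact_mod_cast Nat.one_le_iff_ne_zero.2 this

lemma nm_pos {I : Ideal (𝓞 k)} (h : I ≠ ⊥) : 0 < nm I := lt_of_lt_of_le one_pos (nm_one_le h)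

lemma np_pos (P : PrI k) : 0 < np P := nm_pos P.2.2

lemma nS_pos (m : Finset (PrI k)) : 0 < nS m := Finset.prod_pos fun P _ => np_pos P

lemma prod_np_nonneg (m : Finset (PrI k)) : 0 ≤ ∏ P ∈ m, (np P + 1) :=
  Finset.prod_nonneg fun P _ => by have := np_pos P; linarith

lemma ci_ne (a : ClassGroup (𝓞 k)) : ci a ≠ ⊥ := by
  unfold ci
  exact nonZeroDivisors.coe_ne_zero _

open Classical in
/-- linearity in the weight -/
theorem vs_sum (f A : Ideal (𝓞 k)) (b : 𝓞 k) {ι : Type} (S : Finset ι) (r : ι → ℝ)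
    (W : ι → VV k)
    (hs : ∀ m ∈ S, ∀ a : ClassGroup (𝓞 k), Summable (fun u : V2 k =>
      if u ∈ Lb (ci a) (A * f) ∧ u ∈ Fo k then W m (ci a) A b u else 0)) :
    Vs f (fun a A b u => ∑ m ∈ S, r m * W m a A b u) A b = ∑ m ∈ S, r m * Vs f (W m) A b := by
  unfold Vs
  simp only [Finset.mul_sum]
  rw [Finset.sum_comm]
  refine Finset.sum_congr rfl fun a _ => ?_
  simp only [← tsum_mul_left]
  rw [← Summable.tsum_finsetSum (fun m hm => (hs m hm a).mul_left (r m))]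
  refine tsum_congr fun u => ?_
  split_ifs with hu
  · rfl
  · simp

variable [IsTotallyReal k]

/-- the function of the norm in the central value -/
noncomputable def ph (f : Ideal (𝓞 k)) (D : 𝓞 k) (t : ℝ) : ℝ :=
  2 * Vk k (t * nm f / sD (em D)) / Real.sqrt t

lemma sD_pos {D : 𝓞 k} (h : tp D) : 0 < sD (em D) := by
  unfold sD
  rw [Real.sqrt_pos]
  exact Finset.prod_pos fun v _ => h v

lemma ph_bd (hVK : DV k) (f : Ideal (𝓞 k)) (D : 𝓞 k) (hf : f ≠ ⊥) (hD : tp D) (B : ℕ) :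
    ∃ C : ℝ, 0 ≤ C ∧ ∀ t : ℝ, 0 < t → |ph f D t| ≤ C / (t ^ B * Real.sqrt t) := by
  obtain ⟨C, hC, h⟩ := hVK B
  have h1 := nm_pos hf
  have h2 := sD_pos hD
  set r := nm f / sD (em D) with hr
  have hr0 : 0 < r := div_pos h1 h2
  refine ⟨2 * C / r ^ B, by positivity, fun t ht => ?_⟩
  have h3 : t * nm f / sD (em D) = t * r := by rw [hr, mul_div_assoc]
  have htr : 0 < t * r := by positivity
  have h4 := h (t * r) htr
  have h5 : (1 + t * r) ^ (-(B : ℝ)) ≤ 1 / (t * r) ^ B := by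
    rw [Real.rpow_neg (by positivity), Real.rpow_natCast, one_div]
    apply inv_anti₀ (by positivity)
    exact pow_le_pow_left₀ htr.le (by linarith) B
  have hst : 0 < Real.sqrt t := Real.sqrt_pos.2 ht
  unfold ph
  rw [h3, abs_div, abs_mul, abs_of_pos (two_pos : (0 : ℝ) < 2), abs_of_pos hst,
    div_le_iff₀ hst]
  have h6 : |Vk k (t * r)| ≤ C * (1 / (t * r) ^ B) :=
    h4.trans (mul_le_mul_of_nonneg_left h5 hC.le)
  have h7 : 2 * C / r ^ B / (t ^ B * Real.sqrt t) * Real.sqrt t = 2 * (C * (1 / (t * r) ^ B)) := by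
    rw [mul_pow]
    field_simp
  rw [h7]
  linarith

lemma ph_two (hVK : DV k) (f : Ideal (𝓞 k)) (D : 𝓞 k) (hf : f ≠ ⊥) (hD : tp D) :
    ∃ C : ℝ, 0 ≤ C ∧ ∀ t : ℝ, 0 < t → |ph f D t| ≤ C / t ^ 2 := by
  obtain ⟨C₀, hC₀, h₀⟩ := ph_bd hVK f D hf hD 0
  obtain ⟨C₂, hC₂, h₂⟩ := ph_bd hVK f D hf hD 2
  refine ⟨C₀ + C₂, by positivity, fun t ht => ?_⟩
  have hst : 0 < Real.sqrt t := Real.sqrt_pos.2 ht
  rcases le_total 1 t with h | h
  · refine (h₂ t ht).trans ?_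
    have h1 : 1 ≤ Real.sqrt t := Real.one_le_sqrt.2 h
    have h2 : t ^ 2 ≤ t ^ 2 * Real.sqrt t := le_mul_of_one_le_right (by positivity) h1
    exact div_le_div₀ (by positivity) (by linarith) (by positivity) h2
  · refine (h₀ t ht).trans ?_
    have h1 : t ≤ Real.sqrt t := by
      rw [Real.le_sqrt' ht]
      nlinarith
    have h2 : t ^ 2 ≤ t ^ 0 * Real.sqrt t := by
      rw [pow_zero, one_mul]
      nlinarith
    exact div_le_div₀ (by positivity) (by linarith) (by positivity) h2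

lemma ph_sc (hVK : DV k) (f : Ideal (𝓞 k)) (D : 𝓞 k) (hf : f ≠ ⊥) (hD : tp D) (B : ℕ) (s : ℝ)
    (hs : 0 < s) : ∃ C : ℝ, 0 ≤ C ∧ ∀ x : ℝ, 1 ≤ x → |ph f D (x / s)| ≤ C / x ^ B := by
  obtain ⟨C, hC, h⟩ := ph_bd hVK f D hf hD B
  have hss : 0 < Real.sqrt s := Real.sqrt_pos.2 hs
  refine ⟨C * (s ^ B * Real.sqrt s), by positivity, fun x hx => ?_⟩
  have hx0 : 0 < x := lt_of_lt_of_le one_pos hx
  refine (h (x / s) (by positivity)).trans ?_
  have h1 : 1 ≤ Real.sqrt x := Real.one_le_sqrt.2 hx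
  rw [Real.sqrt_div' x hs.le, div_pow]
  have h2 : C / (x ^ B / s ^ B * (Real.sqrt x / Real.sqrt s)) =
      C * (s ^ B * Real.sqrt s) / (x ^ B * Real.sqrt x) := by
    field_simp
  rw [h2]
  exact div_le_div_of_nonneg_left (by positivity) (by positivity)
    (le_mul_of_one_le_right (by positivity) h1)

/-- the vector weight of a squarefree ideal -/
noncomputable def WV (f : Ideal (𝓞 k)) (D : 𝓞 k) (m : Finset (PrI k)) : VV k := fun a A b u =>
  ph f D (nf a A f (em b) (em D) u / nS m) * (nu f m a A b (q4 (b ^ 2 + D)) u : ℝ)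

lemma nu_le (hHK2 : T_HK2 k) (f : Ideal (𝓞 k)) (D : 𝓞 k) (hf : f ≠ ⊥) (hD : tp D)
    (m : Finset (PrI k)) (a A : Ideal (𝓞 k)) (b : 𝓞 k) (u : V2 k) (ha : a ≠ ⊥) (hF : Fm f D A b)
    (hu : u ∈ Lb a (A * f)) :
    (nu f m a A b (q4 (b ^ 2 + D)) u : ℝ) ≤ ∏ P ∈ m, (np P + 1) := by
  unfold nu
  rw [Nat.cast_prod]
  refine Finset.prod_le_prod (fun P _ => Nat.cast_nonneg _) (fun P _ => ?_)
  exact ((hHK2 f D hf hD a A b u ha hF hu).1 P 1 one_ne_zero).2.2

theorem vf_WV (hLMB : T_LMB k) (hIXN : T_IXN k) (hNUV : T_NUV k) (hHK2 : T_HK2 k) (hVK : DV k)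
    (f : Ideal (𝓞 k)) (D : 𝓞 k) (hf : f ≠ ⊥) (hD : tp D) (K : Type) [Field K] [Algebra k K]
    (h : CK D K) (m : Finset (PrI k)) : VF h f (WV f D m) where
  inv a a' A A' b b' g u u' ha ha' hA hA' hg _ hh hu hu' hz := by
    unfold WV
    rw [(hIXN D hD K h f a a' A A' b b' g hf ha ha' hA hA' hg hh).2 u u' hz]
    have h1 : nu f m a A b (q4 (b ^ 2 + D)) u = nu f m a' A' b' (q4 (b' ^ 2 + D)) u' :=
      Finset.prod_congr rfl fun P _ =>
        hNUV D hD K h f a a' A A' b b' g hf ha ha' hA hA' hg hh P u u' hu hu' hz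
    rw [h1]
  bd B := by
    obtain ⟨C, hC, h1⟩ := ph_sc hVK f D hf hD B (nS m) (nS_pos m)
    have h0 := prod_np_nonneg m
    refine ⟨C * ∏ P ∈ m, (np P + 1), by positivity, fun a A b u ha hA hu hu0 => ?_⟩
    have h2 := (hLMB D hD K h f a A b hf hA).2.2 u hu hu0 ha
    have h3 := h1 _ h2
    have h4 := nu_le hHK2 f D hf hD m a A b u ha hA hu
    unfold WV
    rw [abs_mul, abs_of_nonneg (Nat.cast_nonneg (α := ℝ) (nu f m a A b (q4 (b ^ 2 + D)) u))]
    calc |ph f D (nf a A f (em b) (em D) u / nS m)| * (nu f m a A b (q4 (b ^ 2 + D)) u : ℝ)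
        ≤ (C / nf a A f (em b) (em D) u ^ B) * ∏ P ∈ m, (np P + 1) :=
          mul_le_mul h3 h4 (Nat.cast_nonneg _) (le_trans (abs_nonneg _) h3)
      _ = C * (∏ P ∈ m, (np P + 1)) / nf a A f (em b) (em D) u ^ B := by ring

/-- finite sums -/
theorem vf_sum {D : 𝓞 k} {K : Type} [Field K] [Algebra k K] (h : CK D K) (f : Ideal (𝓞 k))
    {ι : Type} (S : Finset ι) (r : ι → ℝ) (W : ι → VV k) (hW : ∀ m, VF h f (W m)) :
    VF h f (fun a A b u => ∑ m ∈ S, r m * W m a A b u) where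
  inv a a' A A' b b' g u u' ha ha' hA hA' hg hu0 hh hu hu' hz :=
    Finset.sum_congr rfl fun m _ => by
      rw [(hW m).inv a a' A A' b b' g u u' ha ha' hA hA' hg hu0 hh hu hu' hz]
  bd B := by
    choose C hC hb using fun m => (hW m).bd B
    refine ⟨∑ m ∈ S, |r m| * C m,
      Finset.sum_nonneg fun m _ => mul_nonneg (abs_nonneg _) (hC m), fun a A b u ha hA hu hu0 => ?_⟩
    refine (Finset.abs_sum_le_sum_abs _ _).trans ?_
    rw [Finset.sum_div]
    refine Finset.sum_le_sum fun m _ => ?_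
    rw [abs_mul, mul_div_assoc]
    exact mul_le_mul_of_nonneg_left (hb m a A b u ha hA hu hu0) (abs_nonneg _)

open Classical in
/-- the terms of the sum over the vectors are summable, and the sum is bounded -/
theorem vs_bound (f A : Ideal (𝓞 k)) (D b : 𝓞 k) (w : VV k) (C : ℝ) (hA : Fm f D A b)
    (hsum : ∀ a : ClassGroup (𝓞 k), Summable (fun u : {u : V2 k // u ∈ Lb (ci a) (A * f) ∧
      u ∈ Fo k} => 1 / nf (ci a) A f (em b) (em D) u ^ 2))
    (hw : ∀ (a A : Ideal (𝓞 k)) (b : 𝓞 k) (u : V2 k), a ≠ ⊥ →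
    Fm f D A b → u ∈ Lb a (A * f) → u ≠ 0 → |w a A b u| ≤ C / nf a A f (em b) (em D) u ^ 2) :
    (∀ a : ClassGroup (𝓞 k), Summable (fun u : V2 k => if u ∈ Lb (ci a) (A * f) ∧ u ∈ Fo k then
      w (ci a) A b u else 0)) ∧
    |Vs f w A b| ≤ C * Vs f (fun a A b u => 1 / nf a A f (em b) (em D) u ^ 2) A b := by
  have h1 : ∀ a : ClassGroup (𝓞 k), Summable (fun u : V2 k => if u ∈ Lb (ci a) (A * f) ∧
      u ∈ Fo k then 1 / nf (ci a) A f (em b) (em D) u ^ 2 else 0) := by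
    intro a
    have h2 := (summable_subtype_iff_indicator (s := {u : V2 k | u ∈ Lb (ci a) (A * f) ∧
      u ∈ Fo k}) (f := fun u => 1 / nf (ci a) A f (em b) (em D) u ^ 2)).1 (hsum a)
    refine h2.congr (fun u => ?_)
    simp only [Set.indicator_apply, Set.mem_ofPred_eq]
  have h3 : ∀ (a : ClassGroup (𝓞 k)) (u : V2 k),
      ‖(if u ∈ Lb (ci a) (A * f) ∧ u ∈ Fo k then w (ci a) A b u else 0)‖ ≤
      C * (if u ∈ Lb (ci a) (A * f) ∧ u ∈ Fo k then
        1 / nf (ci a) A f (em b) (em D) u ^ 2 else 0) := by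
    intro a u
    split_ifs with hu
    · rw [Real.norm_eq_abs]
      have := hw (ci a) A b u (ci_ne a) hA hu.1 hu.2.1
      rw [mul_one_div]
      exact this
    · simp
  refine ⟨fun a => Summable.of_norm_bounded ((h1 a).mul_left C) (h3 a), ?_⟩
  unfold Vs
  rw [Finset.mul_sum]
  refine (Finset.abs_sum_le_sum_abs _ _).trans (Finset.sum_le_sum fun a _ => ?_)
  rw [← tsum_mul_left, ← Real.norm_eq_abs]
  exact tsum_of_norm_bounded ((h1 a).mul_left C).hasSum (h3 a)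

end

end Pool.Agent.H80.NVK
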